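import Pool.Agent.H858Z.UpLowB

/-!
Q1: the straight-line area of upward planar bipartite DAGs is of order `n ^ 2`.
-/

namespace Pool.Agent.Results.MP_9caa86_co.AStraightTheta

open Pool.Agent.H858Z.Up

theorem result (n : ℕ) (h : 28 ≤ n) :
    (n : ℕ∞) ^ 2 ≤ 144 * areaStraight n ∧ areaStraight n ≤ 144 * (n : ℕ∞) ^ 2 :=
  ⟨le_trans (areaPoly_lower n h) (mul_le_mul' le_rfl (areaPoly_le_areaStraight n)),
    areaStraight_upper n h⟩

end Pool.Agent.Results.MP_9caa86_co.AStraightTheta
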