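import Pool.Agent.H858Z.UpLowB

/-!
Q2: the poly-line area of upward planar bipartite DAGs is of order `n ^ 2`.
-/

namespace Pool.Agent.Results.MP_9caa86_co.BPolyTheta

open Pool.Agent.H858Z.Up

theorem result (n : ℕ) (h : 28 ≤ n) :
    (n : ℕ∞) ^ 2 ≤ 144 * areaPoly n ∧ areaPoly n ≤ 144 * (n : ℕ∞) ^ 2 :=
  ⟨areaPoly_lower n h, le_trans (areaPoly_le_areaStraight n) (areaStraight_upper n h)⟩

end Pool.Agent.Results.MP_9caa86_co.BPolyTheta
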